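import Pool.Agent.R797.KT.Comb
import Pool.Agent.R797.KT.Subdiv

set_option autoImplicit false

/-!
# A finite criterion for the existence of an exactly `k`-to-1 map between two graphs

The definitions (`carrier`, `IsSubdivision`, `mapMatrix`, `quotMatrix`, `MatrixCondition`) are in
`Pool/Agent/R797/KT/Defs.lean`.
-/

namespace Pool.Agent.Results.MP_cde9db_gt.KToOneCriterion

open Pool.Agent.R797.KT

theorem isSubdivision_iso {n : ℕ} {V V' V'' : Type} {G : SimpleGraph V} {G' : SimpleGraph V'}
    {G'' : SimpleGraph V''} (h : IsSubdivision n V G V' G') (e : G' ≃g G'') :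
    IsSubdivision n V G V'' G'' := by
  induction h with
  | iso e' => exact IsSubdivision.iso (e'.trans e)
  | step u v h h' ih => exact IsSubdivision.step u v h (ih e)

theorem isoHomeo_vert {V V' : Type} {G : SimpleGraph V} {G' : SimpleGraph V'} (e : G ≃g G')
    (v : V') : isoHomeo e (vert G' v) = vert G (e.symm v) := by
  apply Subtype.ext
  funext w
  show pt v v 0 (e w) = pt (e.symm v) (e.symm v) 0 w
  rw [pt_apply, pt_apply]
  by_cases h : w = e.symm v
  · have h1 : e w = v := by rw [h]; simp
    rw [if_pos h, if_pos h1]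
  · have h1 : e w ≠ v := fun h' => h (by rw [← h']; simp)
    rw [if_neg h, if_neg h1]

theorem exists_subdivision_fin {V : Type} [Fintype V] (G : SimpleGraph V) (n : ℕ)
    (F : Set (carrier G)) (hF : F.Finite) (hv : ∀ v, vert G v ∈ F)
    (hcard : F.ncard = Fintype.card V + n) :
    ∃ (G' : SimpleGraph (Fin (Fintype.card V + n))) (f : carrier G' ≃ₜ carrier G),
      IsSubdivision n V G _ G' ∧ ∀ x, f x ∈ F ↔ ∃ v, x = vert G' v := by
  obtain ⟨V', G', f, h1, h2⟩ := exists_subdivision n V G F hF hv
    (by rw [hcard, Nat.card_eq_fintype_card])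
  obtain ⟨h3, h4⟩ := h1.finite inferInstance
  rw [Nat.card_eq_fintype_card (α := V)] at h4
  let e : V' ≃ Fin (Fintype.card V + n) := Finite.equivFinOfCardEq h4
  let i : G' ≃g G'.map e.toEmbedding := SimpleGraph.Iso.map e G'
  refine ⟨G'.map e.toEmbedding, (isoHomeo i).trans f, isSubdivision_iso h1 i, fun x => ?_⟩
  show f (isoHomeo i x) ∈ F ↔ _
  rw [h2]
  constructor
  · rintro ⟨v, hv⟩
    refine ⟨i v, (isoHomeo i).injective ?_⟩
    rw [hv, isoHomeo_vert]
    simp
  · rintro ⟨v, rfl⟩
    exact ⟨i.symm v, isoHomeo_vert i v⟩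

theorem exists_adj {V : Type} [Nontrivial V] {G : SimpleGraph V} (hG : G.Connected) (v : V) :
    ∃ w, G.Adj v w := by
  obtain ⟨w, hw⟩ := exists_ne v
  obtain ⟨p⟩ := hG.preconnected v w
  cases p with
  | nil => exact absurd rfl hw
  | cons h _ => exact ⟨_, h⟩

theorem ncard_preimage {X Y : Type} {f : X → Y} {k : ℕ} (hk : 0 < k)
    (hfib : ∀ y, (f ⁻¹' {y}).ncard = k) {F : Set Y} (hF : F.Finite) :
    (f ⁻¹' F).Finite ∧ (f ⁻¹' F).ncard = k * F.ncard := by
  classical
  have hfin : ∀ y, (f ⁻¹' {y}).Finite := fun y => Set.finite_of_ncard_pos (by rw [hfib]; exact hk)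
  induction F, hF using Set.Finite.induction_on with
  | empty => simp
  | @insert a s ha hs ih =>
    obtain ⟨ih1, ih2⟩ := ih
    have h1 : f ⁻¹' (insert a s) = f ⁻¹' {a} ∪ f ⁻¹' s := by
      rw [← Set.preimage_union, Set.singleton_union]
    rw [h1]
    refine ⟨(hfin a).union ih1, ?_⟩
    rw [Set.ncard_union_eq ?_ (hfin a) ih1, hfib, ih2, Set.ncard_insert_of_notMem ha hs]
    · ring
    · rw [Set.disjoint_left]
      intro x hx hx'
      have : f x = a := hx
      exact ha (this ▸ hx')

/-- Let `G` and `H` be connected simple graphs with at least two vertices and `k > 1`. There is a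
`k`-to-1 map between the topological graphs defined by `G` and `H` if and only if, for some `m` at
most the number of vertices of `G`, there are a subdivision `H'` of `H` with `m` new vertices, a
subdivision `G'` of `G` with `k` times as many vertices as `H'`, and a map `φ` between their vertex
sets such that the matrix condition holds. -/
theorem result {V W : Type} [Fintype V] [Fintype W] [Nontrivial V] [Nontrivial W]
    (G : SimpleGraph V) (H : SimpleGraph W) (hG : G.Connected) (hH : H.Connected)
    (k : ℕ) (hk : 1 < k) :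
    (∃ f : carrier G → carrier H, Continuous f ∧ Function.Surjective f ∧
      ∀ y, (f ⁻¹' {y}).ncard = k) ↔
    ∃ m n : ℕ, m ≤ Fintype.card V ∧ Fintype.card V + n = k * (Fintype.card W + m) ∧
      ∃ (G' : SimpleGraph (Fin (Fintype.card V + n))) (H' : SimpleGraph (Fin (Fintype.card W + m)))
        (φ : Fin (Fintype.card V + n) → Fin (Fintype.card W + m)),
        IsSubdivision n V G _ G' ∧ IsSubdivision m W H _ H' ∧ MatrixCondition k G' H' φ := by
  classical
  have _ := hH
  constructor
  · rintro ⟨f, hf, -, hfib⟩
    have hF : (Set.range (vert H) ∪ f '' Set.range (vert G)).Finite :=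
      (Set.finite_range _).union ((Set.finite_range _).image _)
    have hcV : (Set.range (vert G)).ncard = Fintype.card V := by
      rw [← Set.image_univ, Set.ncard_image_of_injective _ (vert_injective G), Set.ncard_univ,
        Nat.card_eq_fintype_card]
    have hcW : (Set.range (vert H)).ncard = Fintype.card W := by
      rw [← Set.image_univ, Set.ncard_image_of_injective _ (vert_injective H), Set.ncard_univ,
        Nat.card_eq_fintype_card]
    set F : Set (carrier H) := Set.range (vert H) ∪ f '' Set.range (vert G) with hFdef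
    have hFle : F.ncard ≤ Fintype.card W + Fintype.card V := by
      refine (Set.ncard_union_le _ _).trans ?_
      rw [hcW, ← hcV]
      exact Nat.add_le_add_left (Set.ncard_image_le (Set.finite_range _)) _
    have hFge : Fintype.card W ≤ F.ncard := by
      rw [← hcW]
      exact Set.ncard_le_ncard Set.subset_union_left hF
    obtain ⟨m, hm⟩ := Nat.exists_eq_add_of_le hFge
    obtain ⟨hEfin, hEcard⟩ := ncard_preimage (by omega : 0 < k) hfib hF
    have hvE : ∀ v, vert G v ∈ f ⁻¹' F := fun v => Or.inr ⟨_, ⟨v, rfl⟩, rfl⟩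
    have hEge : Fintype.card V ≤ (f ⁻¹' F).ncard := by
      rw [← hcV]
      refine Set.ncard_le_ncard ?_ hEfin
      rintro _ ⟨v, rfl⟩
      exact hvE v
    obtain ⟨n, hn⟩ := Nat.exists_eq_add_of_le hEge
    obtain ⟨H', g, hH', hg⟩ := exists_subdivision_fin H m F hF (fun w => Or.inl ⟨w, rfl⟩) hm
    obtain ⟨G', e, hG', he⟩ := exists_subdivision_fin G n (f ⁻¹' F) hEfin hvE hn
    have hmle : m ≤ Fintype.card V := by omega
    have hcount : Fintype.card V + n = k * (Fintype.card W + m) := by rw [← hn, hEcard, hm]
    let f' : carrier G' → carrier H' := fun x => g.symm (f (e x))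
    have hf' : Continuous f' := g.symm.continuous.comp (hf.comp e.continuous)
    have h1 : ∀ v, ∃ w, f' (vert G' v) = vert H' w := by
      intro v
      rw [← hg]
      show g (g.symm (f (e (vert G' v)))) ∈ F
      rw [g.apply_symm_apply]
      exact (he _).2 ⟨v, rfl⟩
    choose φ hφ using h1
    have hv' : ∀ x w, f' x = vert H' w → ∃ v, x = vert G' v := by
      intro x w hxw
      rw [← he]
      have h2 : g (f' x) ∈ F := (hg _).2 ⟨w, hxw⟩
      have h3 : g (f' x) = f (e x) := g.apply_symm_apply _
      rw [h3] at h2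
      exact h2
    have hfib' : ∀ y, (f' ⁻¹' {y}).ncard = k := by
      intro y
      have h2 : f' ⁻¹' {y} = e ⁻¹' (f ⁻¹' {g y}) := by
        ext x
        show g.symm (f (e x)) = y ↔ f (e x) = g y
        constructor
        · intro h
          rw [← h, g.apply_symm_apply]
        · intro h
          rw [h, g.symm_apply_apply]
      rw [h2, ← hfib (g y)]
      refine Set.ncard_preimage_of_injective_subset_range e.injective ?_
      rw [e.surjective.range_eq]
      exact Set.subset_univ _
    obtain ⟨b, hD⟩ := necessity hf' hφ hv' (by omega : 1 ≤ k) hfib'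
    exact ⟨m, n, hmle, hcount, G', H', φ, hG', hH', condition_of_data hD⟩
  · rintro ⟨m, n, -, -, G', H', φ, hG', hH', hM⟩
    obtain ⟨b, hD⟩ := data_of_condition (by omega : 1 ≤ k) hM
    obtain ⟨f, hf, hfib, -, -⟩ := sufficiency (hG'.noIsolated (exists_adj hG)) hD
    obtain ⟨e⟩ := hG'.homeo
    obtain ⟨g⟩ := hH'.homeo
    have hfib' : ∀ y, ((fun x => g (f (e.symm x))) ⁻¹' {y}).ncard = k := by
      intro y
      have h2 : (fun x => g (f (e.symm x))) ⁻¹' {y} = e.symm ⁻¹' (f ⁻¹' {g.symm y}) := by
        ext x
        show g (f (e.symm x)) = y ↔ f (e.symm x) = g.symm y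
        constructor
        · intro h
          rw [← h, g.symm_apply_apply]
        · intro h
          rw [h, g.apply_symm_apply]
      rw [h2, ← hfib (g.symm y)]
      refine Set.ncard_preimage_of_injective_subset_range e.symm.injective ?_
      rw [e.symm.surjective.range_eq]
      exact Set.subset_univ _
    refine ⟨fun x => g (f (e.symm x)), g.continuous.comp (hf.comp e.symm.continuous), ?_, hfib'⟩
    intro y
    have h3 := hfib' y
    have h4 : ((fun x => g (f (e.symm x))) ⁻¹' {y}).Nonempty := by
      rw [Set.nonempty_iff_ne_empty]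
      intro h
      rw [h, Set.ncard_empty] at h3
      omega
    obtain ⟨x, hx⟩ := h4
    exact ⟨x, hx⟩

end Pool.Agent.Results.MP_cde9db_gt.KToOneCriterion
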